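import Pool.Agent.Helper80.HD.GoalsC

set_option autoImplicit false

open Pool.Agent.Helper80.HD Filter Topology

noncomputable section

namespace Pool.Agent.Helper56.HD

section

variable {k m : ℕ} {a : Fin (m + 1) → ℤ} {E : (Fin (k + 1) → ℕ) → ℝ} {D : (Fin k → ℕ) → ℝ}
  {B C₀ : ℝ}

/-- the other coordinates -/
def rst (p : Fin (k + 1)) (h : Fin (k + 1) → ℕ) : Fin k → ℕ := fun i =>
  h (Equiv.swap 0 p i.succ)

theorem E_update (hR : RecData k m a E D B C₀) (p : Fin (k + 1)) (h : Fin (k + 1) → ℕ) (x : ℕ) :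
    E (Function.update h p x) = E (Fin.cons x (rst p h) : Fin (k + 1) → ℕ) := by
  rw [← hR.symE (Equiv.swap 0 p) (Function.update h p x)]
  congr 1
  funext i
  refine Fin.cases ?_ (fun i => ?_) i
  · simp
  · have hne : Equiv.swap 0 p i.succ ≠ p := by
      intro h1
      have h2 : Equiv.swap 0 p i.succ = Equiv.swap 0 p 0 := by rw [h1, Equiv.swap_apply_left]
      exact Fin.succ_ne_zero i ((Equiv.swap 0 p).injective h2)
    simp only [Function.comp_apply, Fin.cons_succ, rst]
    rw [Function.update_of_ne hne]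

/-- bound of `D` on the window -/
def DB (D : (Fin k → ℕ) → ℝ) (m : ℕ) (C₁ : ℝ) : Prop :=
  ∀ (n : ℕ) (J : Fin k → ℕ), (∀ i, n ≤ J i ∧ J i ≤ n + m) → D J ≤ C₁ * D (fun _ => n)

theorem DB_of {C₁ : ℝ} (h : ∀ (n : ℕ) (J : Fin k → ℕ), (∀ i, J i ≤ m) →
    D (fun i => n + J i) ≤ C₁ * D (fun _ => n)) : DB D m C₁ := by
  intro n J hJ
  have h1 := h n (fun i => J i - n) (fun i => by have := hJ i; omega)
  have h2 : (fun i => n + (J i - n)) = J := by
    funext i
    have := hJ i
    omega
  rwa [h2] at h1

theorem rst_mem {p : Fin (k + 1)} {h : Fin (k + 1) → ℕ} {n : ℕ}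
    (hh : ∀ i, n ≤ h i ∧ h i ≤ n + m) (i : Fin k) : n ≤ rst p h i ∧ rst p h i ≤ n + m := hh _

theorem cons_mem {p : Fin (k + 1)} {h : Fin (k + 1) → ℕ} {n x : ℕ}
    (hh : ∀ i, n ≤ h i ∧ h i ≤ n + m) (hx : n ≤ x ∧ x ≤ n + m) (q : Fin (k + 1)) :
    n ≤ (Fin.cons x (rst p h) : Fin (k + 1) → ℕ) q ∧
      (Fin.cons x (rst p h) : Fin (k + 1) → ℕ) q ≤ n + m := by
  refine Fin.cases ?_ (fun i => ?_) q
  · simpa using hx
  · simpa using rst_mem hh i

theorem D_pos (hR : RecData k m a E D B C₀) (J : Fin k → ℕ) : 0 ≤ D J :=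
  zero_le_one.trans (hR.D1 J)

/-- the relation in the slot `p` -/
theorem relE' (hR : RecData k m a E D B C₀) {C₁ : ℝ} (hD : DB D m C₁) (p : Fin (k + 1))
    {h : Fin (k + 1) → ℕ} {n : ℕ} (hh : ∀ i, n ≤ h i ∧ h i ≤ n + m) :
    |∑ i : Fin (m + 1), (a i : ℝ) * E (Function.update h p (n + i))| ≤
      C₀ * (C₁ * (1 + (m + 1) * k)) * D (fun _ => n) := by
  have h1 := hR.relE n (rst p h)
  simp only [E_update hR]
  refine h1.trans ?_
  rw [mul_assoc C₀]
  refine mul_le_mul_of_nonneg_left ?_ hR.C0
  have h2 := hD n (rst p h) (rst_mem hh)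
  have h3 : ∀ i : Fin (m + 1), ∑ l : Fin k,
      D (fun s => (Fin.cons (n + i) (rst p h) : Fin (k + 1) → ℕ) (l.succ.succAbove s)) ≤
        k * (C₁ * D (fun _ => n)) := by
    intro i
    calc ∑ l : Fin k,
        D (fun s => (Fin.cons (n + i) (rst p h) : Fin (k + 1) → ℕ) (l.succ.succAbove s))
        ≤ ∑ _l : Fin k, C₁ * D (fun _ => n) := by
          refine Finset.sum_le_sum fun l _ => ?_
          refine hD n _ fun s => cons_mem hh ?_ _
          have := i.2
          constructor <;> omega
      _ = _ := by rw [Finset.sum_const, Finset.card_univ, Fintype.card_fin, nsmul_eq_mul]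
  have h4 : ∑ i : Fin (m + 1), ∑ l : Fin k,
      D (fun s => (Fin.cons (n + i) (rst p h) : Fin (k + 1) → ℕ) (l.succ.succAbove s)) ≤
        (m + 1) * (k * (C₁ * D (fun _ => n))) := by
    calc _ ≤ ∑ _i : Fin (m + 1), k * (C₁ * D (fun _ => n)) := Finset.sum_le_sum fun i _ => h3 i
      _ = _ := by
        rw [Finset.sum_const, Finset.card_univ, Fintype.card_fin, nsmul_eq_mul]
        push_cast
        ring
  calc _ ≤ C₁ * D (fun _ => n) + (m + 1) * (k * (C₁ * D (fun _ => n))) := add_le_add h2 h4
    _ = _ := by ring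

/-- the increase in the slot `p` -/
theorem incE' (hR : RecData k m a E D B C₀) {C₁ : ℝ} (hD : DB D m C₁) (p : Fin (k + 1))
    {h : Fin (k + 1) → ℕ} {n s : ℕ} (hh : ∀ i, n ≤ h i ∧ h i ≤ n + m) (hs : s + 1 ≤ m) :
    E (Function.update h p (n + s + 1)) ≤ B * E (Function.update h p (n + s)) +
      C₀ * (C₁ * (1 + 2 * k)) * D (fun _ => n) := by
  have h1 := hR.incE (n + s) (rst p h)
  simp only [E_update hR]
  refine h1.trans ?_
  rw [mul_assoc C₀]
  refine add_le_add_right (mul_le_mul_of_nonneg_left ?_ hR.C0) _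
  have h2 := hD n (rst p h) (rst_mem hh)
  have h3 : ∀ x : ℕ, n ≤ x → x ≤ n + m → ∑ l : Fin k,
      D (fun s => (Fin.cons x (rst p h) : Fin (k + 1) → ℕ) (l.succ.succAbove s)) ≤
        k * (C₁ * D (fun _ => n)) := by
    intro x hx1 hx2
    calc ∑ l : Fin k,
        D (fun s => (Fin.cons x (rst p h) : Fin (k + 1) → ℕ) (l.succ.succAbove s))
        ≤ ∑ _l : Fin k, C₁ * D (fun _ => n) := by
          refine Finset.sum_le_sum fun l _ => ?_
          exact hD n _ fun s => cons_mem hh ⟨hx1, hx2⟩ _
      _ = _ := by rw [Finset.sum_const, Finset.card_univ, Fintype.card_fin, nsmul_eq_mul]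
  calc _ ≤ C₁ * D (fun _ => n) + k * (C₁ * D (fun _ => n)) + k * (C₁ * D (fun _ => n)) :=
        add_le_add (add_le_add h2 (h3 _ (by omega) (by omega))) (h3 _ (by omega) (by omega))
    _ = _ := by ring

/-- the companion matrix -/
def TT (m : ℕ) (a : Fin (m + 1) → ℤ) (s t : Fin m) : ℚ :=
  if (s : ℕ) + 1 < m then (if (t : ℕ) = s + 1 then 1 else 0)
  else -(a t.castSucc : ℚ) / (a (Fin.last m) : ℚ)

theorem slot (hR : RecData k m a E D B C₀) {C₁ : ℝ} (hD : DB D m C₁) (p : Fin (k + 1))
    {h : Fin (k + 1) → ℕ} {n : ℕ} (hh : ∀ i, n ≤ h i ∧ h i ≤ n + m) (hC₁ : 0 ≤ C₁) (s : Fin m) :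
    |E (Function.update h p (n + s + 1)) -
      ∑ t : Fin m, (TT m a s t : ℝ) * E (Function.update h p (n + t))| ≤
      |(a (Fin.last m) : ℝ)|⁻¹ * (C₀ * (C₁ * (1 + (m + 1) * k))) * D (fun _ => n) := by
  have hDn := D_pos hR (fun _ => n)
  have hC0 := hR.C0
  by_cases hs : (s : ℕ) + 1 < m
  · have h1 : ∑ t : Fin m, (TT m a s t : ℝ) * E (Function.update h p (n + t)) =
        E (Function.update h p (n + s + 1)) := by
      rw [Finset.sum_eq_single (⟨s + 1, hs⟩ : Fin m)]
      · unfold TT
        rw [if_pos hs, if_pos rfl]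
        simp only [Rat.cast_one, one_mul]
        rw [show n + (s + 1) = n + s + 1 by omega]
      · intro t _ ht
        unfold TT
        rw [if_pos hs, if_neg (fun h => ht (Fin.ext h))]
        simp
      · intro h
        exact absurd (Finset.mem_univ _) h
    rw [h1, sub_self, abs_zero]
    positivity
  · have hsm : (s : ℕ) + 1 = m := by have := s.2; omega
    have h1 := relE' hR hD p hh
    have ham : (a (Fin.last m) : ℝ) ≠ 0 := by exact_mod_cast hR.am
    have h2 : E (Function.update h p (n + s + 1)) -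
        ∑ t : Fin m, (TT m a s t : ℝ) * E (Function.update h p (n + t)) =
        (a (Fin.last m) : ℝ)⁻¹ *
          ∑ i : Fin (m + 1), (a i : ℝ) * E (Function.update h p (n + i)) := by
      rw [Fin.sum_univ_castSucc, mul_add, ← mul_assoc, Fin.val_last, inv_mul_cancel₀ ham, one_mul,
        show n + (s : ℕ) + 1 = n + m by omega, Finset.mul_sum]
      have h3 : ∀ t : Fin m, (TT m a s t : ℝ) * E (Function.update h p (n + t)) =
          -((a (Fin.last m) : ℝ)⁻¹ * ((a t.castSucc : ℝ) *
            E (Function.update h p (n + (t.castSucc : ℕ))))) := by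
        intro t
        unfold TT
        rw [if_neg hs]
        push_cast
        rw [Fin.val_castSucc]
        field_simp
      rw [Finset.sum_congr rfl fun t _ => h3 t, Finset.sum_neg_distrib]
      ring
    rw [h2, abs_mul, abs_inv, mul_assoc]
    exact mul_le_mul_of_nonneg_left h1 (by positivity)

/-- the recurrence, slot by slot -/
theorem all_slots (hR : RecData k m a E D B C₀) {C₁ : ℝ} (hD : DB D m C₁) (hC₁ : 0 ≤ C₁)
    (S : Finset (Fin (k + 1))) :
    ∃ A : Matrix (Fin (k + 1) → Fin m) (Fin (k + 1) → Fin m) ℚ, ∃ C : ℝ, 0 ≤ C ∧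
      ∀ (n : ℕ) (J : Fin (k + 1) → Fin m),
        |E (fun i => n + (J i : ℕ) + (if i ∈ S then 1 else 0)) -
          ∑ J' : Fin (k + 1) → Fin m, (A J J' : ℝ) * E (fun i => n + (J' i : ℕ))| ≤
          C * D (fun _ => n) := by
  have hC0 := hR.C0
  induction S using Finset.induction_on with
  | empty =>
    refine ⟨1, 0, le_rfl, fun n J => ?_⟩
    have h1 : ∑ J' : Fin (k + 1) → Fin m,
        (((1 : Matrix (Fin (k + 1) → Fin m) (Fin (k + 1) → Fin m) ℚ) J J' : ℚ) : ℝ) *
          E (fun i => n + (J' i : ℕ)) = E (fun i => n + (J i : ℕ)) := by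
      rw [Finset.sum_eq_single J]
      · rw [Matrix.one_apply_eq]; simp
      · intro J' _ hJ
        rw [Matrix.one_apply_ne hJ.symm]; simp
      · intro h; exact absurd (Finset.mem_univ _) h
    rw [h1]
    simp
  | insert p S hp ih =>
    obtain ⟨A, C, hC, hA⟩ := ih
    set c : ℝ := |(a (Fin.last m) : ℝ)|⁻¹ * (C₀ * (C₁ * (1 + (m + 1) * k))) with hc
    have hc0 : 0 ≤ c := by rw [hc]; positivity
    set τ : ℝ := ∑ s : Fin m, ∑ t : Fin m, |(TT m a s t : ℝ)| with hτ
    have hτ0 : 0 ≤ τ := Finset.sum_nonneg fun _ _ => Finset.sum_nonneg fun _ _ => abs_nonneg _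
    refine ⟨fun J J' => ∑ t : Fin m, TT m a (J p) t * A (Function.update J p t) J',
      c + τ * C, by positivity, fun n J => ?_⟩
    have hDn := D_pos hR (fun _ => n)
    -- the window
    set h : Fin (k + 1) → ℕ := fun i => n + (J i : ℕ) + (if i ∈ S then 1 else 0) with hh
    have hwin : ∀ i, n ≤ h i ∧ h i ≤ n + m := by
      intro i
      have := (J i).2
      simp only [hh]
      split_ifs <;> omega
    have e1 : (fun i => n + (J i : ℕ) + (if i ∈ insert p S then 1 else 0)) =
        Function.update h p (n + (J p : ℕ) + 1) := by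
      funext i
      by_cases hi : i = p
      · subst hi
        rw [Function.update_self, if_pos (Finset.mem_insert_self _ _)]
      · rw [Function.update_of_ne hi]
        simp only [hh, Finset.mem_insert, hi, false_or]
    have e2 : ∀ t : Fin m, Function.update h p (n + (t : ℕ)) =
        fun i => n + ((Function.update J p t i : Fin m) : ℕ) + (if i ∈ S then 1 else 0) := by
      intro t
      funext i
      by_cases hi : i = p
      · subst hi
        rw [Function.update_self, Function.update_self, if_neg hp, add_zero]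
      · rw [Function.update_of_ne hi, Function.update_of_ne hi]
    have s1 := slot hR hD p hwin hC₁ (J p)
    rw [← e1] at s1
    simp only [e2] at s1
    rw [← hc] at s1
    -- the second approximation
    have s2 : |∑ t : Fin m, (TT m a (J p) t : ℝ) *
          E (fun i => n + ((Function.update J p t i : Fin m) : ℕ) + (if i ∈ S then 1 else 0)) -
        ∑ J' : Fin (k + 1) → Fin m,
          ((∑ t : Fin m, TT m a (J p) t * A (Function.update J p t) J' : ℚ) : ℝ) *
            E (fun i => n + (J' i : ℕ))| ≤ τ * C * D (fun _ => n) := by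
      have e3 : ∑ J' : Fin (k + 1) → Fin m,
          ((∑ t : Fin m, TT m a (J p) t * A (Function.update J p t) J' : ℚ) : ℝ) *
            E (fun i => n + (J' i : ℕ)) =
          ∑ t : Fin m, (TT m a (J p) t : ℝ) * ∑ J' : Fin (k + 1) → Fin m,
            (A (Function.update J p t) J' : ℝ) * E (fun i => n + (J' i : ℕ)) := by
        simp only [Finset.mul_sum]
        rw [Finset.sum_comm]
        refine Finset.sum_congr rfl fun J' _ => ?_
        push_cast
        rw [Finset.sum_mul]
        refine Finset.sum_congr rfl fun t _ => ?_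
        ring
      rw [e3, ← Finset.sum_sub_distrib]
      refine (Finset.abs_sum_le_sum_abs _ _).trans ?_
      have h5 : ∀ t : Fin m, |(TT m a (J p) t : ℝ) *
            E (fun i => n + ((Function.update J p t i : Fin m) : ℕ) + (if i ∈ S then 1 else 0)) -
          (TT m a (J p) t : ℝ) * ∑ J' : Fin (k + 1) → Fin m,
            (A (Function.update J p t) J' : ℝ) * E (fun i => n + (J' i : ℕ))| ≤
          |(TT m a (J p) t : ℝ)| * (C * D (fun _ => n)) := by
        intro t
        rw [← mul_sub, abs_mul]
        exact mul_le_mul_of_nonneg_left (hA n (Function.update J p t)) (abs_nonneg _)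
      refine (Finset.sum_le_sum fun t _ => h5 t).trans ?_
      rw [← Finset.sum_mul, mul_assoc τ]
      refine mul_le_mul_of_nonneg_right ?_ (by positivity)
      rw [hτ]
      exact Finset.single_le_sum (f := fun s : Fin m => ∑ t : Fin m, |(TT m a s t : ℝ)|)
        (fun s _ => Finset.sum_nonneg fun _ _ => abs_nonneg _) (Finset.mem_univ (J p))
    have s3 := abs_add_le
      (E (fun i => n + (J i : ℕ) + (if i ∈ insert p S then 1 else 0)) -
        ∑ t : Fin m, (TT m a (J p) t : ℝ) *
          E (fun i => n + ((Function.update J p t i : Fin m) : ℕ) + (if i ∈ S then 1 else 0)))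
      (∑ t : Fin m, (TT m a (J p) t : ℝ) *
          E (fun i => n + ((Function.update J p t i : Fin m) : ℕ) + (if i ∈ S then 1 else 0)) -
        ∑ J' : Fin (k + 1) → Fin m,
          ((∑ t : Fin m, TT m a (J p) t * A (Function.update J p t) J' : ℚ) : ℝ) *
            E (fun i => n + (J' i : ℕ)))
    rw [sub_add_sub_cancel] at s3
    refine s3.trans ?_
    calc _ ≤ c * D (fun _ => n) + τ * C * D (fun _ => n) := add_le_add s1 s2
      _ = _ := by ring

/-- the bound, slot by slot -/
theorem all_bounds (hR : RecData k m a E D B C₀) {C₁ : ℝ} (hD : DB D m C₁) (hC₁ : 0 ≤ C₁)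
    (S : Finset (Fin (k + 1))) :
    ∃ C : ℝ, 1 ≤ C ∧ ∀ (n : ℕ) (J : Fin (k + 1) → ℕ), (∀ i, J i ≤ m) → (∀ i, i ∉ S → J i = 0) →
      E (fun i => n + J i) ≤ C * (E (fun _ => n) + D (fun _ => n)) := by
  have hC0 := hR.C0
  have hB1 := hR.B1
  induction S using Finset.induction_on with
  | empty =>
    refine ⟨1, le_rfl, fun n J _ hJ => ?_⟩
    have h1 : (fun i => n + J i) = fun _ => n := by
      funext i
      rw [hJ i (Finset.notMem_empty i), add_zero]
    rw [h1, one_mul]
    have := D_pos hR (fun _ => n)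
    linarith
  | insert p S hp ih =>
    obtain ⟨C, hC, hb⟩ := ih
    set c : ℝ := C₀ * (C₁ * (1 + 2 * k)) with hc
    have hc0 : 0 ≤ c := by rw [hc]; positivity
    have hbase : 1 ≤ B + c := by linarith
    have hpow : 1 ≤ (B + c) ^ m := one_le_pow₀ hbase
    refine ⟨(B + c) ^ m * (C + 1), by nlinarith, fun n J hJm hJ => ?_⟩
    have hDn := D_pos hR (fun _ => n)
    have hEn := hR.E0 (fun _ => n)
    set h : Fin (k + 1) → ℕ := fun i => n + J i with hh
    have hwin : ∀ i, n ≤ h i ∧ h i ≤ n + m := by
      intro i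
      have := hJm i
      simp only [hh]
      omega
    -- the slot `p`
    have hE0 : 0 ≤ E (Function.update h p n) := hR.E0 _
    have key : ∀ s : ℕ, s ≤ m → E (Function.update h p (n + s)) ≤
        (B + c) ^ s * (E (Function.update h p n) + D (fun _ => n)) := by
      intro s
      induction s with
      | zero => intro _; rw [add_zero, pow_zero, one_mul]; linarith
      | succ s ihs =>
        intro hs
        have h1 := ihs (by omega)
        have h2 := incE' hR hD p hwin hs
        rw [← hc] at h2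
        have h3 : 1 ≤ (B + c) ^ s := one_le_pow₀ hbase
        rw [← add_assoc]
        refine h2.trans ?_
        have h4 : B * E (Function.update h p (n + s)) ≤
            B * ((B + c) ^ s * (E (Function.update h p n) + D (fun _ => n))) :=
          mul_le_mul_of_nonneg_left h1 (by linarith)
        have h5 : D (fun _ => n) ≤ (B + c) ^ s * (E (Function.update h p n) + D (fun _ => n)) := by
          nlinarith
        have h6 := mul_le_mul_of_nonneg_left h5 hc0
        rw [pow_succ]
        linarith
    have h7 := key (J p) (hJm p)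
    have e1 : Function.update h p (n + J p) = fun i => n + J i := by
      rw [show n + J p = h p from rfl, Function.update_eq_self]
    rw [e1] at h7
    have e2 : Function.update h p n = fun i => n + (Function.update J p 0) i := by
      funext i
      by_cases hi : i = p
      · subst hi
        rw [Function.update_self, Function.update_self, add_zero]
      · rw [Function.update_of_ne hi, Function.update_of_ne hi]
    have h8 := hb n (Function.update J p 0) (fun i => by
      by_cases hi : i = p
      · subst hi; rw [Function.update_self]; omega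
      · rw [Function.update_of_ne hi]; exact hJm i) (fun i hi => by
      by_cases hip : i = p
      · subst hip; rw [Function.update_self]
      · rw [Function.update_of_ne hip]
        exact hJ i (fun h => hi ((Finset.mem_insert.mp h).resolve_left hip)))
    rw [← e2] at h8
    have h9 : (B + c) ^ (J p) ≤ (B + c) ^ m := pow_le_pow_right₀ hbase (hJm p)
    calc E (fun i => n + J i) ≤ (B + c) ^ (J p) * (E (Function.update h p n) + D (fun _ => n)) := h7
      _ ≤ (B + c) ^ m * (E (Function.update h p n) + D (fun _ => n)) :=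
          mul_le_mul_of_nonneg_right h9 (by linarith)
      _ ≤ (B + c) ^ m * ((C + 1) * (E (fun _ => n) + D (fun _ => n))) := by
          refine mul_le_mul_of_nonneg_left ?_ (by positivity)
          nlinarith
      _ = _ := by ring

end

theorem she (h : S_SHD) : S_SHE := by
  intro k m a E D B C₀ hm hR
  obtain ⟨-, C₁, hC₁, hD⟩ := h k m a E D B C₀ hm hR
  have hDB : DB D m C₁ := DB_of hD
  have hC₁0 : 0 ≤ C₁ := zero_le_one.trans hC₁
  constructor
  · obtain ⟨A, C, hC, hA⟩ := all_slots hR hDB hC₁0 Finset.univ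
    refine ⟨A, C, hC, fun n => ?_⟩
    rw [pi_norm_le_iff_of_nonneg (mul_nonneg hC (D_pos hR _))]
    intro J
    have h1 := hA n J
    have e1 : (fun i => n + (J i : ℕ) + (if i ∈ (Finset.univ : Finset (Fin (k + 1))) then 1 else 0)) =
        fun i => n + 1 + (J i : ℕ) := by
      funext i
      rw [if_pos (Finset.mem_univ i)]
      omega
    rw [e1] at h1
    rw [Real.norm_eq_abs]
    exact h1
  · obtain ⟨C, hC, hb⟩ := all_bounds hR hDB hC₁0 Finset.univ
    exact ⟨C, hC, fun n J hJ => hb n J hJ (fun i hi => absurd (Finset.mem_univ i) hi)⟩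

end Pool.Agent.Helper56.HD
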